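import Mathlib
import Pool.Agent.H.MP_4af00a_nt.Dm

namespace Pool.Agent.H.MP_9b2749_nt

open Finset Nat Pool.Agent.H.MP_4af00a_nt

variable {p : ℕ} {hp : p.Prime}

lemma Mneg {e : ℕ} {x : ℚ} (h : M hp e x) : M hp e (-x) := by
  have := h.mul (neg_mem (one_mem _)); simpa using this

lemma Msub {e : ℕ} {x y : ℚ} (h1 : M hp e x) (h2 : M hp e y) : M hp e (x - y) := by
  rw [sub_eq_add_neg]; exact h1.add (Mneg h2)

lemma Mlmul {e : ℕ} {x y : ℚ} (h2 : y ∈ R p hp) (h1 : M hp e x) : M hp e (y * x) := by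
  rw [mul_comm]; exact h1.mul h2

lemma Cmul {a b c d : ℚ} (hb : b ∈ R p hp) (hc : c ∈ R p hp) (h1 : M hp 1 (a - b))
    (h2 : M hp 1 (c - d)) : M hp 1 (a * c - b * d) := by
  have := (h1.mul hc).add (Mlmul hb h2)
  convert this using 1; ring

lemma Cprod (s : Finset ℕ) (f g : ℕ → ℚ) (hf : ∀ i ∈ s, f i ∈ R p hp) (hg : ∀ i ∈ s, g i ∈ R p hp)
    (h : ∀ i ∈ s, M hp 1 (f i - g i)) : M hp 1 (∏ i ∈ s, f i - ∏ i ∈ s, g i) := by
  induction s using Finset.induction_on with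
  | empty => exact ⟨0, zero_mem _, by simp⟩
  | insert a s ha ih =>
    rw [prod_insert ha, prod_insert ha]
    exact Cmul (hg a (mem_insert_self _ _)) (prod_mem fun i hi => hf i (mem_insert_of_mem hi))
      (h a (mem_insert_self _ _)) (ih (fun i hi => hf i (mem_insert_of_mem hi))
        (fun i hi => hg i (mem_insert_of_mem hi)) (fun i hi => h i (mem_insert_of_mem hi)))

lemma Cpow {a b : ℚ} (ha : a ∈ R p hp) (hb : b ∈ R p hp) (h : M hp 1 (a - b)) (n : ℕ) :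
    M hp 1 (a ^ n - b ^ n) := by
  have := Cprod (hp := hp) (range n) (fun _ => a) (fun _ => b) (fun _ _ => ha) (fun _ _ => hb)
    (fun _ _ => h)
  simpa using this

lemma FD (n t : ℕ) (e : ℕ → ℕ) (a : ℕ → ℚ) (h : ∑ i ∈ range t, e i < n) :
    ∑ k ∈ range (n + 1), A (n + 1) k * ∏ i ∈ range t, ((k : ℚ) + a i) ^ e i = 0 := by
  set P : Polynomial ℚ := ∏ i ∈ range t, (Polynomial.X + Polynomial.C (a i)) ^ e i with hP
  have hd : P.natDegree < n := by
    refine lt_of_le_of_lt (Polynomial.natDegree_prod_le _ _) (lt_of_le_of_lt ?_ h)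
    refine sum_le_sum fun i _ => ?_
    refine Polynomial.natDegree_pow_le.trans ?_
    rw [Polynomial.natDegree_X_add_C, mul_one]
  have h0 := congrFun (Polynomial.fwdDiff_iter_eq_zero_of_degree_lt hd) 0
  rw [fwdDiff_iter_eq_sum_shift] at h0
  have : ∑ k ∈ range (n + 1), A (n + 1) k * ∏ i ∈ range t, ((k : ℚ) + a i) ^ e i =
      (-1) ^ n * ∑ k ∈ range (n + 1), ((-1 : ℤ) ^ (n - k) * n.choose k) •
        P.eval ((0 : ℚ) + k • (1 : ℚ)) := by
    rw [mul_sum]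
    refine sum_congr rfl fun k hk => ?_
    obtain ⟨j, rfl⟩ : ∃ j, n = k + j := ⟨n - k, by have := mem_range.1 hk; omega⟩
    rw [A_eq, hP, Polynomial.eval_prod, Nat.add_sub_cancel_left]
    simp only [Polynomial.eval_pow, Polynomial.eval_add, Polynomial.eval_X, Polynomial.eval_C,
      zsmul_eq_mul, nsmul_eq_mul, zero_add, mul_one]
    push_cast
    have : ((-1 : ℚ)) ^ j * (-1) ^ j = 1 := by rw [← mul_pow]; simp
    rw [pow_add]
    linear_combination (-((-1 : ℚ) ^ k * ((k + j).choose k : ℚ) *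
      ∏ i ∈ range t, ((k : ℚ) + a i) ^ e i)) * this
  rw [this, h0]; simp

def h (k : ℕ) : ℚ := ∑ j ∈ range k, (((j : ℚ) + 1)⁻¹) ^ 2

lemma h_mem (h3 : 3 < p) (k : ℕ) (hk : k < p) : h k ∈ R p hp := (AB h3 k hk).2.2

lemma h_refl (h3 : 3 < p) (a b : ℕ) (hab : a + b + 1 = p) : M hp 1 (h a + h b) := by
  obtain ⟨n, hn⟩ : ∃ n, p = 2 * n + 1 := hp.odd_of_ne_two (by omega)
  have key : ∀ d b, b + d = n → M hp 1 (h (n + d) + h b) := by
    intro d
    induction d with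
    | zero =>
      intro b hb
      obtain rfl : b = n := by omega
      exact (H2 b hn h3).add (H2 b hn h3)
    | succ d ih =>
      intro b hb
      have h1 := ih (b + 1) (by omega)
      have h2 := refl_sq (hp := hp) (b + 1) (by omega) (by omega)
      have e : (p : ℚ) - ((b + 1 : ℕ) : ℚ) = ((n + d : ℕ) : ℚ) + 1 := by
        have : p = (n + d + 1) + (b + 1) := by omega
        rw [this]; push_cast; ring
      rw [e] at h2
      have := h1.add h2
      convert this using 1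
      rw [show n + (d + 1) = n + d + 1 by ring, h, h, h, h, sum_range_succ, sum_range_succ _ b]
      push_cast; ring
  rcases le_total a b with hl | hl
  · have := key (b - n) a (by omega)
    rw [show n + (b - n) = b by omega, add_comm] at this; exact this
  · have := key (a - n) b (by omega)
    rw [show n + (a - n) = a by omega] at this; exact this

def G (t m k : ℕ) : ℚ := ∏ i ∈ range t, ((k : ℚ) + (i + 1)) ^ m

def Gi (t m i k : ℕ) : ℚ := ∏ j ∈ range t, ((k : ℚ) + (j + 1)) ^ (if j = i then m - 2 else m)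

lemma pw_mem (t k : ℕ) (e : ℕ → ℕ) : ∏ j ∈ range t, ((k : ℚ) + (j + 1)) ^ e j ∈ R p hp :=
  prod_mem fun j _ => pow_mem (add_mem (nat_mem hp k) (add_mem (nat_mem hp j) (one_mem _))) _

lemma Gi_eq (t m i k : ℕ) (hi : i < t) (hm : 2 < m) :
    G t m k * ((((k + i : ℕ) : ℚ) + 1)⁻¹) ^ 2 = Gi t m i k := by
  unfold G Gi
  rw [← mul_prod_erase _ _ (mem_range.2 hi), ← mul_prod_erase _ _ (mem_range.2 hi), if_pos rfl]
  have : ∏ j ∈ (range t).erase i, ((k : ℚ) + (j + 1)) ^ (if j = i then m - 2 else m) =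
      ∏ j ∈ (range t).erase i, ((k : ℚ) + (j + 1)) ^ m :=
    prod_congr rfl fun j hj => by rw [if_neg (mem_erase.1 hj).1]
  rw [this]
  obtain ⟨q, rfl⟩ : ∃ q, m = q + 2 := ⟨m - 2, by omega⟩
  rw [Nat.add_sub_cancel, pow_add]
  push_cast
  field_simp
  ring

lemma van (t k : ℕ) (e : ℕ → ℕ) (he : ∀ j, 0 < e j) (h1 : k < p) (h2 : p ≤ k + t) :
    M hp 1 (∏ j ∈ range t, ((k : ℚ) + (j + 1)) ^ e j) := by
  have hj : p - k - 1 ∈ range t := mem_range.2 (by omega)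
  rw [← mul_prod_erase _ _ hj]
  have e1 : (k : ℚ) + (((p - k - 1 : ℕ) : ℚ) + 1) = p := by
    have : p = k + ((p - k - 1) + 1) := by omega
    conv_rhs => rw [this]
    push_cast; ring
  rw [e1]
  obtain ⟨q, hq⟩ : ∃ q, e (p - k - 1) = q + 1 := ⟨e (p - k - 1) - 1, by have := he (p - k - 1); omega⟩
  rw [hq]
  refine M.mul ⟨(p : ℚ) ^ q, pow_mem (nat_mem hp p) q, by ring⟩ ?_
  exact prod_mem fun j _ => pow_mem (add_mem (nat_mem hp k) (add_mem (nat_mem hp j) (one_mem _))) _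

lemma G_refl (t m k k' : ℕ) (hk : k + k' + t + 1 = p) (hev : Even (m * t)) :
    M hp 1 (G t m k' - G t m k) := by
  have e1 : G t m k' = ∏ i ∈ range t, ((p : ℚ) - (k + (i + 1))) ^ m := by
    rw [G, ← prod_range_reflect]
    refine prod_congr rfl fun j hj => ?_
    obtain ⟨r, rfl⟩ : ∃ r, t = j + 1 + r := ⟨t - (j + 1), by have := mem_range.1 hj; omega⟩
    rw [show j + 1 + r - 1 - j = r by omega, ← hk]
    push_cast; ring
  have e2 : G t m k = ∏ i ∈ range t, (-((k : ℚ) + (i + 1))) ^ m := by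
    simp_rw [neg_pow ((k : ℚ) + _)]
    rw [prod_mul_distrib, prod_const, card_range, ← pow_mul, hev.neg_one_pow, one_mul, G]
  rw [e1, e2]
  have hm : ∀ i : ℕ, (k : ℚ) + (i + 1) ∈ R p hp := fun i =>
    add_mem (nat_mem hp k) (add_mem (nat_mem hp i) (one_mem _))
  refine Cprod _ _ _ (fun i _ => pow_mem (sub_mem (nat_mem hp p) (hm i)) _)
    (fun i _ => pow_mem (neg_mem (hm i)) _) fun i _ => ?_
  exact Cpow (sub_mem (nat_mem hp p) (hm i)) (neg_mem (hm i)) ⟨1, one_mem _, by ring⟩ m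

lemma sum_Gi (h3 : 3 < p) (t m i N : ℕ) (hm : 2 < m) (hN : N + t = p) (hd : m * t + 1 < p) :
    M hp 1 (∑ k ∈ range N, Gi t m i k) := by
  obtain ⟨n, rfl⟩ : ∃ n, p = n + 1 := ⟨p - 1, by omega⟩
  have f := FD n t (fun j => if j = i then m - 2 else m) (fun j => (j : ℚ) + 1) (by
    refine lt_of_le_of_lt (sum_le_card_nsmul _ _ m fun j _ => by split_ifs <;> omega) ?_
    simp only [card_range, smul_eq_mul]
    rw [mul_comm]; omega)
  have a1 : M hp 1 (∑ k ∈ range (n + 1), (A (n + 1) k - 1) * Gi t m i k) :=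
    M.sum _ _ fun k hk => (AB h3 k (mem_range.1 hk)).1.mul (pw_mem _ _ _)
  have a2 : M hp 1 (∑ k ∈ range t, Gi t m i (N + k)) :=
    M.sum _ _ fun k hk => van t (N + k) _ (fun j => by split_ifs <;> omega)
      (by have := mem_range.1 hk; omega) (by omega)
  have := Mneg (a1.add a2)
  convert this using 1
  simp_rw [sub_mul, one_mul]
  rw [sum_sub_distrib]
  unfold Gi at *
  rw [f, ← hN, sum_range_add]
  ring

theorem sum_hG (h3 : 3 < p) (t m : ℕ) (hm : 2 < m) (hd : m * t + 1 < p) (hev : Even (m * t)) :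
    M hp 1 (∑ k ∈ range p, h k * G t m k) := by
  have ht : t < p := by nlinarith
  obtain ⟨N, hN⟩ : ∃ N, N + t = p := ⟨p - t, by omega⟩
  have h2 : (2 : ℚ)⁻¹ ∈ R p hp := inv_lt hp 2 (by omega) (by omega) _ (by simp)
  have a1 : M hp 1 (∑ k ∈ range t, h (N + k) * G t m (N + k)) :=
    M.sum _ _ fun k hk => Mlmul (h_mem h3 _ (by have := mem_range.1 hk; omega))
      (van t (N + k) (fun _ => m) (fun _ => by omega) (by have := mem_range.1 hk; omega) (by omega))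
  have a2 : M hp 1 (∑ k ∈ range N, (h (N - 1 - k) * G t m (N - 1 - k) - (- h (k + t)) * G t m k)) := by
    refine M.sum _ _ fun k hk => ?_
    have := mem_range.1 hk
    refine Cmul (neg_mem (h_mem h3 _ (by omega))) (pw_mem _ _ _) ?_ (G_refl t m k _ (by omega) hev)
    rw [sub_neg_eq_add]
    exact h_refl h3 _ _ (by omega)
  have a3 : M hp 1 (∑ i ∈ range t, ∑ k ∈ range N, Gi t m i k) :=
    M.sum _ _ fun i _ => sum_Gi h3 t m i N hm hN hd
  have e3 : ∑ i ∈ range t, ∑ k ∈ range N, Gi t m i k =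
      ∑ k ∈ range N, h (k + t) * G t m k - ∑ k ∈ range N, h k * G t m k := by
    rw [sum_comm, ← sum_sub_distrib]
    refine sum_congr rfl fun k _ => ?_
    rw [h, sum_range_add, ← h, add_mul, add_sub_cancel_left, sum_mul]
    refine sum_congr rfl fun i hi => ?_
    rw [← Gi_eq t m i k (mem_range.1 hi) hm, mul_comm]
  rw [sum_sub_distrib, sum_range_reflect (fun k => h k * G t m k)] at a2
  have := ((Msub a2 a3).mul h2).add a1
  convert this using 1
  rw [e3, ← hN, sum_range_add]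
  simp_rw [neg_mul]
  rw [sum_neg_distrib]
  ring

lemma bin3 (y : ℚ) (hy : y ∈ R p hp) (n : ℕ) : ∃ r ∈ R p hp,
    (1 + y) ^ n = 1 + n * y + (n.choose 2 : ℚ) * y ^ 2 + y ^ 3 * r := by
  induction n with
  | zero => exact ⟨0, zero_mem _, by simp⟩
  | succ n ih =>
    obtain ⟨r, hr, e⟩ := ih
    refine ⟨(n.choose 2 : ℚ) + r + y * r, add_mem (add_mem (nat_mem hp _) hr) (mul_mem hy hr), ?_⟩
    rw [pow_succ, e, Nat.choose_succ_succ' n 1, Nat.choose_one_right]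
    push_cast; ring

lemma Eexp (h3 : 3 < p) (m : ℕ) (hm : 0 < m) (hpm : ¬ p ∣ m) (k : ℕ) (hk : k < p) :
    M hp 3 ((∏ i ∈ range k, (1 - (p : ℚ) * (m : ℚ)⁻¹ * ((i : ℚ) + 1)⁻¹)) ^ m - A p k -
      (p : ℚ) ^ 2 * ((m.choose 2 : ℚ) * (m : ℚ)⁻¹ ^ 2) * h k) := by
  have hμ := inv_mem' hp m hpm
  have hp' := nat_mem hp p
  have hm0 : (m : ℚ) * (m : ℚ)⁻¹ = 1 := by field_simp
  induction k with
  | zero => exact ⟨0, zero_mem _, by simp [A, h]⟩
  | succ k ih =>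
    obtain ⟨b, hb, e2⟩ := ih (by omega)
    obtain ⟨⟨a, ha, e1⟩, -, -⟩ := AB (hp := hp) h3 k (by omega)
    have hh := h_mem (hp := hp) h3 k (by omega)
    have u : ((k : ℚ) + 1)⁻¹ ∈ R p hp := inv_lt hp (k + 1) (by omega) (by omega) _ (by simp)
    obtain ⟨r, hr, e3⟩ := bin3 (hp := hp) (-((p : ℚ) * (m : ℚ)⁻¹ * ((k : ℚ) + 1)⁻¹))
      (neg_mem (mul_mem (mul_mem hp' hμ) u)) m
    have hc : (m.choose 2 : ℚ) ∈ R p hp := nat_mem hp _
    rw [A, h, prod_range_succ, prod_range_succ, sum_range_succ, ← A, ← h, mul_pow, sub_eq_add_neg 1, e3]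
    generalize ((k : ℚ) + 1)⁻¹ = v at *
    generalize (m : ℚ)⁻¹ = μ at *
    generalize (m.choose 2 : ℚ) = c at *
    generalize (∏ i ∈ range k, (1 - (p : ℚ) * μ * ((i : ℚ) + 1)⁻¹)) ^ m = E at *
    have eA : A p k = 1 + p * a := by linear_combination e1
    have eE : E = 1 + p * a + (p : ℚ) ^ 2 * (c * μ ^ 2) * h k + p ^ 3 * b := by
      linear_combination e2 + e1
    refine ⟨a * c * μ ^ 2 * v ^ 2 - (1 + p * a) * μ ^ 3 * v ^ 3 * r +
      c * μ ^ 2 * h k * (-v + p * c * μ ^ 2 * v ^ 2 - p ^ 2 * μ ^ 3 * v ^ 3 * r) +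
      b * (1 - p * v + p ^ 2 * c * μ ^ 2 * v ^ 2 - p ^ 3 * μ ^ 3 * v ^ 3 * r), ?_, ?_⟩
    · have o := one_mem (R p hp)
      repeat' first
        | assumption
        | apply add_mem
        | apply sub_mem
        | apply mul_mem
        | apply neg_mem
        | apply pow_mem
    · rw [eE, eA]
      linear_combination (-(1 + p * a + (p : ℚ) ^ 2 * (c * μ ^ 2) * h k + p ^ 3 * b) * p * v) * hm0

theorem main (h3 : 3 < p) (t m : ℕ) (hm : 2 < m) (hpm : ¬ p ∣ m) (hd : m * t + 1 < p)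
    (hev : Even (m * t)) :
    M hp 3 (∑ k ∈ range p, ((∏ i ∈ range k, ((i : ℚ) + t + 1 - p * (m : ℚ)⁻¹)) / k !) ^ m) := by
  have ht : t < p := by nlinarith
  have hμ := inv_mem' hp m hpm
  have hp' := nat_mem hp p
  have hm0 : (m : ℚ) ≠ 0 := by positivity
  set W : ℚ := ∏ i ∈ range t, ((i : ℚ) + 1 - p * (m : ℚ)⁻¹) with hW
  have hu : ∀ i ∈ range t, ((i : ℚ) + 1 - p * (m : ℚ)⁻¹) ≠ 0 ∧
      ((i : ℚ) + 1 - p * (m : ℚ)⁻¹)⁻¹ ∈ R p hp := by
    intro i hi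
    have hi' := mem_range.1 hi
    have hlt : m * (i + 1) < p := by nlinarith
    have u : ((p : ℚ) - m * (i + 1))⁻¹ ∈ R p hp :=
      inv_lt hp (p - m * (i + 1)) (by omega) (by
        have : 0 < m * (i + 1) := by positivity
        omega) _ (by rw [Nat.cast_sub hlt.le]; push_cast; ring)
    have hne : ((p : ℚ) - m * (i + 1)) ≠ 0 := by
      have : ((m * (i + 1) : ℕ) : ℚ) < p := by exact_mod_cast hlt
      push_cast at this; linarith
    have e : ((i : ℚ) + 1 - p * (m : ℚ)⁻¹) = ((p : ℚ) - m * (i + 1)) / (-m) := by field_simp; ring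
    rw [e, inv_div, div_eq_mul_inv (-(m : ℚ))]
    exact ⟨div_ne_zero hne (neg_ne_zero.2 hm0), mul_mem (neg_mem (nat_mem hp m)) u⟩
  have hW0 : W ≠ 0 := prod_ne_zero_iff.2 fun i hi => (hu i hi).1
  have hWi : W⁻¹ ∈ R p hp := by
    rw [hW, ← prod_inv_distrib]; exact prod_mem fun i hi => (hu i hi).2
  let Q : ℕ → ℚ := fun k => ∏ i ∈ range t, ((k : ℚ) + (i + 1 - p * (m : ℚ)⁻¹)) ^ m
  have hQm : ∀ k i : ℕ, (k : ℚ) + (i + 1 - p * (m : ℚ)⁻¹) ∈ R p hp := fun k i =>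
    add_mem (nat_mem hp k) (sub_mem (add_mem (nat_mem hp i) (one_mem _)) (mul_mem hp' hμ))
  have hQ : ∀ k, Q k ∈ R p hp := fun k => prod_mem fun i _ => pow_mem (hQm k i) _
  have e : ∀ k : ℕ, ((∏ i ∈ range k, ((i : ℚ) + t + 1 - p * (m : ℚ)⁻¹)) / k !) ^ m =
      (∏ i ∈ range k, (1 - (p : ℚ) * (m : ℚ)⁻¹ * ((i : ℚ) + 1)⁻¹)) ^ m * Q k * W⁻¹ ^ m := by
    intro k
    have s1 := prod_range_add (fun i => ((i : ℚ) + 1 - p * (m : ℚ)⁻¹)) t k
    have s2 := prod_range_add (fun i => ((i : ℚ) + 1 - p * (m : ℚ)⁻¹)) k t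
    rw [add_comm k t, s1, ← hW] at s2
    have s3 : ∏ i ∈ range k, (1 - (p : ℚ) * (m : ℚ)⁻¹ * ((i : ℚ) + 1)⁻¹) =
        (∏ i ∈ range k, ((i : ℚ) + 1 - p * (m : ℚ)⁻¹)) / k ! := by
      rw [← prod_range_add_one_eq_factorial]
      push_cast
      rw [← prod_div_distrib]
      refine prod_congr rfl fun i _ => ?_
      field_simp
    have s4 : ∏ i ∈ range k, ((i : ℚ) + t + 1 - p * (m : ℚ)⁻¹) =
        ∏ i ∈ range k, (((t + i : ℕ) : ℚ) + 1 - p * (m : ℚ)⁻¹) :=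
      prod_congr rfl fun i _ => by push_cast; ring
    have s5 : Q k = (∏ i ∈ range t, (((k + i : ℕ) : ℚ) + 1 - p * (m : ℚ)⁻¹)) ^ m := by
      rw [← prod_pow]
      exact prod_congr rfl fun i _ => by push_cast; ring
    rw [s3, s4, s5, ← mul_pow, ← mul_pow]
    congr 1
    field_simp
    field_simp at s2
    linear_combination s2
  simp_rw [e]
  rw [← sum_mul]
  refine M.mul ?_ (pow_mem hWi _)
  have a1 : M hp 3 (∑ k ∈ range p, ((∏ i ∈ range k, (1 - (p : ℚ) * (m : ℚ)⁻¹ * ((i : ℚ) + 1)⁻¹)) ^ m -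
      A p k - (p : ℚ) ^ 2 * ((m.choose 2 : ℚ) * (m : ℚ)⁻¹ ^ 2) * h k) * Q k) :=
    M.sum _ _ fun k hk => (Eexp h3 m (by omega) hpm k (mem_range.1 hk)).mul (hQ k)
  have a2 : ∑ k ∈ range p, A p k * Q k = 0 := by
    obtain ⟨n, hn⟩ : ∃ n, p = n + 1 := ⟨p - 1, by omega⟩
    have := FD n t (fun _ => m) (fun i => (i : ℚ) + 1 - p * (m : ℚ)⁻¹) (by
      simp only [sum_const, card_range, smul_eq_mul]; rw [mul_comm]; omega)
    rw [← hn] at this
    exact this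
  have a3 : M hp 1 (∑ k ∈ range p, h k * (Q k - G t m k)) := by
    refine M.sum _ _ fun k hk => Mlmul (h_mem h3 k (mem_range.1 hk)) ?_
    have hm' : ∀ i : ℕ, (k : ℚ) + (i + 1) ∈ R p hp := fun i =>
      add_mem (nat_mem hp k) (add_mem (nat_mem hp i) (one_mem _))
    refine Cprod _ _ _ (fun i _ => pow_mem (hQm k i) _) (fun i _ => pow_mem (hm' i) _) fun i _ => ?_
    exact Cpow (hQm k i) (hm' i) ⟨-(m : ℚ)⁻¹, neg_mem hμ, by ring⟩ m
  obtain ⟨r, hr, e4⟩ := a3.add (sum_hG h3 t m hm hd hev)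
  have a4 : M hp 3 ((p : ℚ) ^ 2 * ((m.choose 2 : ℚ) * (m : ℚ)⁻¹ ^ 2) * ∑ k ∈ range p, h k * Q k) := by
    refine ⟨((m.choose 2 : ℚ) * (m : ℚ)⁻¹ ^ 2) * r, mul_mem (mul_mem (nat_mem hp _) (pow_mem hμ 2)) hr, ?_⟩
    have : ∑ k ∈ range p, h k * Q k = (p : ℚ) ^ 1 * r := by
      rw [← e4, ← sum_add_distrib]; exact sum_congr rfl fun k _ => by ring
    rw [this]; ring
  have := a1.add a4
  convert this using 1
  simp_rw [sub_mul]
  rw [sum_sub_distrib, sum_sub_distrib, a2, mul_sum]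
  have : ∑ k ∈ range p, (p : ℚ) ^ 2 * ((m.choose 2 : ℚ) * (m : ℚ)⁻¹ ^ 2) * h k * Q k =
      ∑ k ∈ range p, (p : ℚ) ^ 2 * ((m.choose 2 : ℚ) * (m : ℚ)⁻¹ ^ 2) * (h k * Q k) :=
    sum_congr rfl fun k _ => by ring
  rw [this]; ring

end Pool.Agent.H.MP_9b2749_nt
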